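import Pool.Agent.Y911.BL.Main

/-! # Local one-dimensional rigidity fails for bi-Lipschitz maps of any distortion -/

set_option autoImplicit false

open Metric
open scoped ContDiff Laplacian

namespace Pool.Agent.Results.MP_c10eee_an.BiLipschitz

/-- three-dimensional Euclidean space -/
abbrev E : Type := EuclideanSpace ℝ (Fin 3)

/-- `V` is a one-dimensional solution: `V'' = f(V)` on the whole line -/
def OneDimSol (f V : ℝ → ℝ) : Prop :=
  ∃ V' : ℝ → ℝ, (∀ s, HasDerivAt V (V' s) s) ∧ ∀ s, HasDerivAt V' (f (V s)) s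

/-- `Φ` is bi-Lipschitz on the open ball of radius `δ` centred at the origin, with lower constant
`c` and upper constant `C` -/
def BiLip (δ c C : ℝ) (Φ : E → E) : Prop :=
  ∀ x ∈ ball (0 : E) δ, ∀ y ∈ ball (0 : E) δ,
    c * ‖x - y‖ ≤ ‖Φ x - Φ y‖ ∧ ‖Φ x - Φ y‖ ≤ C * ‖x - y‖

/-- `u` satisfies the standing hypothesis: it is a one-dimensional solution after a
homeomorphism `Φ` of the closed unit ball onto itself -/
def TopOneDim (f : ℝ → ℝ) (u : E → ℝ) : Prop :=
  ∃ (V : ℝ → ℝ) (a : E) (Φ : closedBall (0 : E) 1 ≃ₜ closedBall (0 : E) 1),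
    OneDimSol f V ∧ ‖a‖ = 1 ∧ ∀ x : closedBall (0 : E) 1, u x = V (inner ℝ (Φ x : E) a)

/-- on the ball of radius `δ`, `u` is the profile `V` of a coordinate of a bi-Lipschitz map with
constants `c` and `C` -/
def BiLipRep (V : ℝ → ℝ) (u : E → ℝ) (δ c C : ℝ) : Prop :=
  ∃ (a : E) (Φ : E → E), ‖a‖ = 1 ∧ BiLip δ c C Φ ∧ ∀ x ∈ ball (0 : E) δ, u x = V (inner ℝ (Φ x) a)

/-- For every continuous compactly supported `f ≥ 0` there is a smooth solution `u` of
`Δ u = f(u)` in the unit ball of three-dimensional space which is homeomorphic, by a homeomorphism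
of the closed unit ball onto itself, to a one-dimensional solution, but which on no ball around
the centre is a one-dimensional solution composed with a coordinate of a bi-Lipschitz map, however
large its distortion; in fact the same holds with any continuously differentiable profile `V`
in place of a one-dimensional solution. -/
theorem result (f : ℝ → ℝ) (hf : Continuous f) (hs : HasCompactSupport f) (h0 : ∀ t, 0 ≤ f t) :
    ∃ u : E → ℝ, ContDiff ℝ ∞ u ∧ (∀ x ∈ ball (0 : E) 1, (Δ u) x = f (u x)) ∧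
      TopOneDim f u ∧
      (∀ V : ℝ → ℝ, OneDimSol f V → ∀ δ c C : ℝ, 0 < δ → 0 < c → ¬ BiLipRep V u δ c C) ∧
      ∀ V : ℝ → ℝ, ContDiff ℝ 1 V → ∀ δ c C : ℝ, 0 < δ → 0 < c → ¬ BiLipRep V u δ c C := by
  obtain ⟨u, h1, h2, ⟨V, V', a, Φ, hV, hV', ha, hΦ⟩, h4⟩ :=
    Pool.Agent.Y911.BL.main f hf hs h0
  refine ⟨u, h1, h2, ⟨V, a, Φ, ⟨V', hV, hV'⟩, ha, hΦ⟩, ?_, ?_⟩
  · rintro W ⟨W', hW, hW'⟩ δ c C hδ hc ⟨b, Ψ, hb, hΨ, hrep⟩
    exact h4 δ c C W W' b Ψ hδ hc hW
      (continuous_iff_continuousAt.2 fun s => (hW' s).continuousAt) hb hΨ hrep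
  · rintro W hW δ c C hδ hc ⟨b, Ψ, hb, hΨ, hrep⟩
    exact h4 δ c C W (deriv W) b Ψ hδ hc
      (fun s => (hW.differentiable (by norm_num)).differentiableAt.hasDerivAt)
      (hW.continuous_deriv (by norm_num)) hb hΨ hrep

end Pool.Agent.Results.MP_c10eee_an.BiLipschitz
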